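import Mathlib
import Pool.Agent.ETS.Far4
import Pool.Agent.E3.FA

/-!
# E-T (MP_12a1af_nt), phase 3: the far lemma with prescribed hash values, known keys

As `Helper3.ETF.Far3p`; the regions `m ∈ nf L` of the scale `L` have prescribed hash values, two
solutions are different if their variables differ in one of the regions below `ct`.
-/

open Finset

namespace Pool.Agent.E3F

open Pool.Agent.ETS

section

variable {M N Kmax : ℕ} (lay : ℕ → Lay N) (pad : ℕ → ℕ) (nf : ℕ → Finset ℕ)

/-- all indices of the regions `i ≤ pad + 1` and of the prescribed regions -/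
def U0 : Finset (Ind M N Kmax) :=
  univ.filter (fun q => q.2.1.val ≤ pad q.1.val + 1 ∨ q.2.1.val ∈ nf q.1.val)

lemma nfI_sub_U0 : (nfI nf : Finset (Ind M N Kmax)) ⊆ U0 pad nf := by
  intro q hq
  rw [mem_nfI] at hq
  unfold U0
  rw [mem_filter]
  exact ⟨mem_univ _, Or.inr hq⟩

/-- the known set -/
def Uof (K : Fin (Kmax+1)) (T : Finset (Cand M N Kmax)) : Finset (Ind M N Kmax) :=
  U0 pad nf ∪ T.biUnion (Sidx lay K)

lemma U_closed {K : Fin (Kmax+1)} {T : Finset (Cand M N Kmax)} {L : Fin (Kmax+1)}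
    {z : Fin M → Fin N} {m m₀ : Fin M} (hm : m₀ ≤ m) (hmn : m.val ∉ nf L.val)
    (h : (L, m, key (lay L) m.val z) ∈ Uof lay pad nf K T) :
    (L, m₀, key (lay L) m₀.val z) ∈ Uof lay pad nf K T := by
  unfold Uof at *
  rw [mem_union] at *
  rcases h with h | h
  · left
    unfold U0 at *
    simp only [mem_filter, mem_univ, true_and] at *
    have : m₀.val ≤ m.val := hm
    rcases h with h | h
    · left; omega
    · exact absurd h hmn
  · right
    rw [mem_biUnion] at *
    obtain ⟨w, hw, h⟩ := h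
    refine ⟨w, hw, ?_⟩
    unfold Sidx at *
    rw [mem_union, mem_hidx, mem_hidx] at *
    rcases h with ⟨m', _, h⟩ | ⟨m', _, h⟩
    · left
      simp only [Prod.mk.injEq] at h
      obtain ⟨h1, h2, h3⟩ := h
      subst h1 h2
      exact ⟨m₀, Nat.zero_le _, by rw [key_mono (show m₀.val ≤ m.val from hm) h3]⟩
    · right
      simp only [Prod.mk.injEq] at h
      obtain ⟨h1, h2, h3⟩ := h
      subst h1 h2
      exact ⟨m₀, Nat.zero_le _, by rw [key_mono (show m₀.val ≤ m.val from hm) h3]⟩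

open Classical in
/-- known keys of region `i` at scale `L` -/
noncomputable def Pfx (K : Fin (Kmax+1)) (T : Finset (Cand M N Kmax)) (L : Fin (Kmax+1)) (i : ℕ) :
    Finset (Fin M → Option (Fin N)) :=
  univ.filter (fun p => (∃ z : Fin M → Fin N, (∀ m : Fin M, z m ∈ (lay L).V m) ∧
    p = key (lay L) i z) ∧ ∃ hi : i < M, (L, ⟨i, hi⟩, p) ∈ Uof lay pad nf K T)

lemma card_Pfx (hV0 : ∀ L ≤ Kmax, ∀ i ≤ pad L, ((lay L).V i).card ≤ 1) (K : Fin (Kmax+1))
    (T : Finset (Cand M N Kmax)) (L : Fin (Kmax+1)) {i : ℕ} (hin : i ∉ nf L.val) :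
    (Pfx lay pad nf K T L i).card ≤ 2 * T.card + 1 := by
  classical
  have hLm : L.val ≤ Kmax := by have := L.isLt; omega
  -- the common key of the regions `i ≤ pad + 1`
  obtain ⟨p₀, hp₀⟩ : ∃ p₀ : Fin M → Option (Fin N), ∀ z : Fin M → Fin N,
      (∀ m : Fin M, z m ∈ (lay L).V m) → i ≤ pad L.val + 1 → key (lay L) i z = p₀ := by
    by_cases hz : ∃ z₀ : Fin M → Fin N, ∀ m : Fin M, z₀ m ∈ (lay L).V m
    · obtain ⟨z₀, hz₀⟩ := hz
      refine ⟨key (lay L) i z₀, fun z hz hi => ?_⟩
      rw [key_eq_iff]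
      refine ⟨fun j hj => ?_, fun j hj => ?_⟩
      · exact Finset.card_le_one.mp (hV0 L hLm j.val (by omega)) _ (hz j) _ (hz₀ j)
      · rw [Finset.card_le_one.mp (hV0 L hLm j.val (by omega)) _ (hz j) _ (hz₀ j)]
    · refine ⟨fun _ => none, fun z hz' _ => absurd ⟨z, hz'⟩ hz⟩
  have hsub : Pfx lay pad nf K T L i ⊆ insert p₀ (T.image (fun w => key (lay L) i w.2.1) ∪
      T.image (fun w => key (lay L) i w.2.2)) := by
    intro p hp
    unfold Pfx at hp
    simp only [mem_filter, mem_univ, true_and] at hp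
    obtain ⟨⟨z, hzV, rfl⟩, hi, h⟩ := hp
    unfold Uof at h
    rw [mem_union] at h
    rw [mem_insert, mem_union, mem_image, mem_image]
    rcases h with h | h
    · left
      unfold U0 at h
      simp only [mem_filter, mem_univ, true_and] at h
      rcases h with h | h
      · exact hp₀ z hzV h
      · exact absurd h hin
    · right
      rw [mem_biUnion] at h
      obtain ⟨w, hw, h⟩ := h
      unfold Sidx at h
      rw [mem_union, mem_hidx, mem_hidx] at h
      rcases h with ⟨m', _, h⟩ | ⟨m', _, h⟩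
      · left
        simp only [Prod.mk.injEq] at h
        obtain ⟨h1, h2, h3⟩ := h
        refine ⟨w, hw, ?_⟩
        rw [h3, ← h2, h1]
      · right
        simp only [Prod.mk.injEq] at h
        obtain ⟨h1, h2, h3⟩ := h
        refine ⟨w, hw, ?_⟩
        rw [h3, ← h2, h1]
  calc (Pfx lay pad nf K T L i).card ≤ _ := card_le_card hsub
    _ ≤ (T.image (fun w => key (lay L) i w.2.1) ∪ T.image (fun w => key (lay L) i w.2.2)).card + 1 :=
        card_insert_le _ _
    _ ≤ ((T.image (fun w => key (lay L) i w.2.1)).card +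
          (T.image (fun w => key (lay L) i w.2.2)).card) + 1 :=
        Nat.add_le_add_right (card_union_le _ _) _
    _ ≤ (T.card + T.card) + 1 := by
        have h1 := card_image_le (s := T) (f := fun w : Cand M N Kmax => key (lay L) i w.2.1)
        have h2 := card_image_le (s := T) (f := fun w : Cand M N Kmax => key (lay L) i w.2.2)
        omega
    _ = _ := by ring

open Classical in
/-- the last fresh region whose hash shift is known for `z` -/
noncomputable def lastKnown (K : Fin (Kmax+1)) (T : Finset (Cand M N Kmax)) (L : Fin (Kmax+1))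
    (z : Fin M → Fin N) : ℕ :=
  Nat.findGreatest (fun m => m ∉ nf L.val ∧
    ∃ hm : m < M, (L, ⟨m, hm⟩, key (lay L) m z) ∈ Uof lay pad nf K T) (M-1)

lemma lastKnown_lt (hM : 0 < M) (K : Fin (Kmax+1)) (T : Finset (Cand M N Kmax))
    (L : Fin (Kmax+1)) (z : Fin M → Fin N) : lastKnown lay pad nf K T L z < M := by
  unfold lastKnown
  have := Nat.findGreatest_le
    (P := fun m => m ∉ nf L.val ∧
      ∃ hm : m < M, (L, (⟨m, hm⟩ : Fin M), key (lay L) m z) ∈ Uof lay pad nf K T) (M-1)
  omega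

/-- the first region `pad + 1` is fresh and known -/
lemma first_known (K : Fin (Kmax+1)) (T : Finset (Cand M N Kmax))
    (L : Fin (Kmax+1)) (hM : pad L + 2 ≤ M) (hn : pad L + 1 ∉ nf L) (z : Fin M → Fin N) :
    pad L + 1 ∉ nf L.val ∧
    ∃ hm : pad L + 1 < M, (L, (⟨pad L + 1, hm⟩ : Fin M), key (lay L) (pad L + 1) z) ∈
      Uof lay pad nf K T := by
  refine ⟨hn, by omega, ?_⟩
  unfold Uof U0
  rw [mem_union]
  left
  simp

lemma one_le_lastKnown (K : Fin (Kmax+1)) (T : Finset (Cand M N Kmax))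
    (L : Fin (Kmax+1)) (hM : pad L + 2 ≤ M) (hn : pad L + 1 ∉ nf L) (z : Fin M → Fin N) :
    pad L + 1 ≤ lastKnown lay pad nf K T L z := by
  classical
  unfold lastKnown
  exact Nat.le_findGreatest
    (P := fun m => m ∉ nf L.val ∧
      ∃ hm : m < M, (L, (⟨m, hm⟩ : Fin M), key (lay L) m z) ∈ Uof lay pad nf K T)
    (by omega) (first_known lay pad nf K T L hM hn z)

lemma lastKnown_spec (K : Fin (Kmax+1)) (T : Finset (Cand M N Kmax))
    (L : Fin (Kmax+1)) (hM : pad L + 2 ≤ M) (hn : pad L + 1 ∉ nf L) (z : Fin M → Fin N) :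
    lastKnown lay pad nf K T L z ∉ nf L.val ∧ ∃ hm : lastKnown lay pad nf K T L z < M,
      (L, ⟨lastKnown lay pad nf K T L z, hm⟩, key (lay L) (lastKnown lay pad nf K T L z) z) ∈
        Uof lay pad nf K T := by
  classical
  unfold lastKnown
  exact Nat.findGreatest_spec
    (P := fun m => m ∉ nf L.val ∧
      ∃ hm : m < M, (L, (⟨m, hm⟩ : Fin M), key (lay L) m z) ∈ Uof lay pad nf K T)
    (m := pad L + 1) (by omega) (first_known lay pad nf K T L hM hn z)

lemma known_of_le {K : Fin (Kmax+1)} {T : Finset (Cand M N Kmax)}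
    {L : Fin (Kmax+1)} (hM : pad L + 2 ≤ M) (hn : pad L + 1 ∉ nf L) {z : Fin M → Fin N}
    (m : Fin M) (hm : m.val ≤ lastKnown lay pad nf K T L z) :
    (L, m, key (lay L) m.val z) ∈ Uof lay pad nf K T := by
  obtain ⟨h0, h1, h2⟩ := lastKnown_spec lay pad nf K T L hM hn z
  exact U_closed lay pad nf (m := ⟨lastKnown lay pad nf K T L z, h1⟩) hm h0 h2

lemma unknown_of_gt {K : Fin (Kmax+1)} {T : Finset (Cand M N Kmax)}
    {L : Fin (Kmax+1)} {z : Fin M → Fin N} (m : Fin M) (hm : lastKnown lay pad nf K T L z < m.val)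
    (hmn : m.val ∉ nf L.val) :
    (L, m, key (lay L) m.val z) ∉ Uof lay pad nf K T := by
  classical
  intro h
  have h1 : m.val ≤ M - 1 := by have := m.isLt; omega
  have := Nat.le_findGreatest
    (P := fun m => m ∉ nf L.val ∧
      ∃ hm : m < M, (L, (⟨m, hm⟩ : Fin M), key (lay L) m z) ∈ Uof lay pad nf K T)
    h1 ⟨hmn, m.isLt, h⟩
  unfold lastKnown at hm
  omega

/-- the variables of the regions below `ct` are different -/
def Rdiff (ct : ℕ → ℕ) (K : Fin (Kmax+1)) (w' w : Cand M N Kmax) : Prop :=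
  ∃ j : Fin M, j.val < ct K.val ∧ w'.2.1 j ≠ w.2.1 j

lemma lastKnown_le_ct {ct : ℕ → ℕ} {K : Fin (Kmax+1)} (hM : pad K + 2 ≤ M)
    (hn : pad K + 1 ∉ nf K) (hct : pad K + 1 ≤ ct K) {T : Finset (Cand M N Kmax)}
    (hT : ∀ w ∈ T, w.1 ≠ K) {w : Cand M N Kmax} (hR : ∀ w' ∈ T, Rdiff ct K w' w) :
    lastKnown lay pad nf K T K w.2.1 ≤ ct K := by
  by_contra hcon
  push Not at hcon
  obtain ⟨h0, hm, h2⟩ := lastKnown_spec lay pad nf K T K hM hn w.2.1
  unfold Uof at h2
  rw [mem_union] at h2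
  rcases h2 with h2 | h2
  · unfold U0 at h2
    simp only [mem_filter, mem_univ, true_and] at h2
    rcases h2 with h2 | h2
    · omega
    · exact h0 h2
  · rw [mem_biUnion] at h2
    obtain ⟨w', hw', h2⟩ := h2
    unfold Sidx at h2
    rw [mem_union, mem_hidx, mem_hidx] at h2
    rcases h2 with ⟨m', _, h⟩ | ⟨m', _, h⟩
    · simp only [Prod.mk.injEq] at h
      obtain ⟨_, h4, h5⟩ := h
      obtain ⟨j, hj, hne⟩ := hR w' hw'
      apply hne
      have h6 : m'.val = lastKnown lay pad nf K T K w.2.1 := by rw [← h4]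
      rw [h6] at h5
      exact ((key_eq_iff.mp h5).1 j (by omega)).symm
    · simp only [Prod.mk.injEq] at h
      exact hT w' hw' h.1.symm

end

end Pool.Agent.E3F
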